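import Pool.Agent.PDT.Stmts

set_option autoImplicit false

namespace Pool.Agent.PDT.H56

open Pool.Agent.PDT

theorem pairInj {p i j i' j' : ℕ} (hj : j < p) (hj' : j' < p) (h : i * p + j = i' * p + j') :
    i = i' ∧ j = j' := by
  have h1 : i = i' := by
    rcases lt_trichotomy i i' with h1 | h1 | h1
    · have h2 := Nat.mul_le_mul_right p h1
      rw [Nat.succ_mul] at h2
      lia
    · exact h1
    · have h2 := Nat.mul_le_mul_right p h1
      rw [Nat.succ_mul] at h2
      lia
  subst h1
  exact ⟨rfl, by lia⟩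

theorem pairLt {p q i j : ℕ} (hi : i < q) (hj : j < p) : i * p + j < q * p := by
  have h2 := Nat.mul_le_mul_right p hi
  rw [Nat.succ_mul] at h2
  lia

/-- a finite family with injective bounded component -/
theorem exu {I : Type} [Fintype I] [DecidableEq I] {t : ℕ} (hI : Fintype.card I = t)
    (T : I → ℕ × ℕ × ℕ) (π : ℕ × ℕ × ℕ → ℕ) (hinj : Function.Injective fun a => π (T a))
    (hlt : ∀ a, π (T a) < t) :
    ∀ i < t, ∃! e, e ∈ Finset.univ.image T ∧ π e = i := by
  intro i hi
  let f : I → Fin t := fun a => ⟨π (T a), hlt a⟩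
  have hf : Function.Injective f := by
    intro a b h
    exact hinj (congrArg Fin.val h)
  have hb : Function.Bijective f := by
    rw [Fintype.bijective_iff_injective_and_card]
    exact ⟨hf, by rw [hI, Fintype.card_fin]⟩
  obtain ⟨a, ha⟩ := hb.2 ⟨i, hi⟩
  have ha' : π (T a) = i := congrArg Fin.val ha
  refine ⟨T a, ⟨Finset.mem_image_of_mem _ (Finset.mem_univ _), ha'⟩, ?_⟩
  rintro e ⟨he, he2⟩
  obtain ⟨b, _, rfl⟩ := Finset.mem_image.1 he
  have hab : b = a := hinj (he2.trans ha'.symm)
  rw [hab]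

section

variable (F : List (List (ℕ × Bool))) (p : ℕ) (v : ℕ → Bool) (c : Fin p → Fin p)

/-- the chosen wheel triple -/
def wh (i j : ℕ) : ℕ × ℕ × ℕ :=
  if v i then (tip p i j false, i * p + j, i * p + j)
    else (tip p i j true, i * p + (j + 1) % p, i * p + j)

/-- the place of `i ≠ c` -/
def pl (c i : ℕ) : ℕ := if i < c then i else i - 1

/-- the component of the other triple -/
def rc (i j c : ℕ) : ℕ := if i = c then p * p + j else p * p + p + (j * (p - 1) + pl c i)

/-- the other triple -/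
def re (i j c : ℕ) : ℕ × ℕ × ℕ := (tip p i j (v i), rc p i j c, rc p i j c)

def TT (a : Bool × Fin p × Fin p) : ℕ × ℕ × ℕ :=
  if a.1 then wh p v a.2.1 a.2.2 else re p v a.2.1 a.2.2 (c a.2.2)

end

theorem tip_inj {p i j i' j' : ℕ} {b b' : Bool} (hj : j < p) (hj' : j' < p)
    (h : tip p i j b = tip p i' j' b') : i = i' ∧ j = j' ∧ b = b' := by
  unfold tip at h
  have h1 : i * p + j = i' * p + j' := by
    cases b <;> cases b' <;> simp at h <;> lia
  have h2 := pairInj hj hj' h1
  refine ⟨h2.1, h2.2, ?_⟩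
  cases b <;> cases b' <;> simp at h <;> first | rfl | lia

theorem tip_lt {p i j : ℕ} {b : Bool} (hi : i < p) (hj : j < p) : tip p i j b < 2 * (p * p) := by
  have h := pairLt hi hj
  unfold tip
  cases b <;> simp <;> lia

theorem wh_fst (p : ℕ) (v : ℕ → Bool) (i j : ℕ) : (wh p v i j).1 = tip p i j (!v i) := by
  unfold wh
  cases h : v i <;> simp

theorem wh_ss (p : ℕ) (v : ℕ → Bool) (i j : ℕ) : (wh p v i j).2.2 = i * p + j := by
  unfold wh
  cases h : v i <;> simp

theorem wh_s (p : ℕ) (v : ℕ → Bool) (i j : ℕ) :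
    (wh p v i j).2.1 = i * p + (if v i then j else (j + 1) % p) := by
  unfold wh
  cases h : v i <;> simp

theorem succ_mod_inj {p j j' : ℕ} (hj : j < p) (hj' : j' < p) (h : (j + 1) % p = (j' + 1) % p) :
    j = j' := by
  rcases lt_or_eq_of_le (show j + 1 ≤ p from hj) with h1 | h1
  · rcases lt_or_eq_of_le (show j' + 1 ≤ p from hj') with h2 | h2
    · rw [Nat.mod_eq_of_lt h1, Nat.mod_eq_of_lt h2] at h
      lia
    · rw [Nat.mod_eq_of_lt h1, h2, Nat.mod_self] at h
      lia
  · rcases lt_or_eq_of_le (show j' + 1 ≤ p from hj') with h2 | h2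
    · rw [Nat.mod_eq_of_lt h2, h1, Nat.mod_self] at h
      lia
    · lia

theorem wh_s_lt {p : ℕ} (v : ℕ → Bool) {i j : ℕ} (hi : i < p) (hj : j < p) :
    (wh p v i j).2.1 < p * p := by
  rw [wh_s]
  split_ifs
  · exact pairLt hi hj
  · exact pairLt hi (Nat.mod_lt _ (by lia))

theorem wh_s_inj {p : ℕ} (v : ℕ → Bool) {i j i' j' : ℕ} (hj : j < p) (hj' : j' < p)
    (h : (wh p v i j).2.1 = (wh p v i' j').2.1) : i = i' ∧ j = j' := by
  rw [wh_s, wh_s] at h
  have hm : ∀ k, k < p → ∀ b : Bool, (if b then k else (k + 1) % p) < p := by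
    intro k hk b
    cases b
    · exact Nat.mod_lt _ (by lia)
    · exact hk
  have h1 := pairInj (hm j hj (v i)) (hm j' hj' (v i')) h
  obtain ⟨h2, h3⟩ := h1
  subst h2
  refine ⟨rfl, ?_⟩
  cases hv : v i
  · rw [hv] at h3
    exact succ_mod_inj hj hj' h3
  · rw [hv] at h3
    exact h3

theorem pl_lt {p c i : ℕ} (hi : i < p) (hc : c < p) (h : i ≠ c) : pl c i < p - 1 := by
  unfold pl
  split_ifs <;> lia

theorem pl_inj {c i i' : ℕ} (h : i ≠ c) (h' : i' ≠ c) (he : pl c i = pl c i') : i = i' := by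
  unfold pl at he
  split_ifs at he <;> lia

theorem rc_ge (p i j c : ℕ) : p * p ≤ rc p i j c := by
  unfold rc
  split_ifs <;> lia

theorem rc_lt {p i j c : ℕ} (hi : i < p) (hj : j < p) (hc : c < p) :
    rc p i j c < 2 * (p * p) := by
  unfold rc
  have h0 : p ≤ p * p := Nat.le_mul_self p
  split_ifs with h
  · lia
  · have h1 := pairLt hj (pl_lt hi hc h)
    have h2 : p * (p - 1) + p = p * p := by
      obtain ⟨q, rfl⟩ : ∃ q, p = q + 1 := ⟨p - 1, by lia⟩
      simp only [Nat.add_sub_cancel]
      ring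
    lia

theorem rc_inj {p : ℕ} (c : Fin p → Fin p) (i j i' j' : Fin p)
    (h : rc p i j (c j) = rc p i' j' (c j')) : i = i' ∧ j = j' := by
  unfold rc at h
  have hj := j.2
  have hj' := j'.2
  split_ifs at h with h1 h2 h2
  · have h3 : j = j' := Fin.ext (by lia)
    subst h3
    exact ⟨Fin.ext (h1.trans h2.symm), rfl⟩
  · exfalso
    have h5 := Nat.zero_le ((j' : ℕ) * (p - 1) + pl (c j') i')
    generalize (j' : ℕ) * (p - 1) + pl (c j') i' = z at h h5
    lia
  · exfalso
    have h5 := Nat.zero_le ((j : ℕ) * (p - 1) + pl (c j) i)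
    generalize (j : ℕ) * (p - 1) + pl (c j) i = z at h h5
    lia
  · have h3 : (j : ℕ) * (p - 1) + pl (c j) i = (j' : ℕ) * (p - 1) + pl (c j') i' := by lia
    have h4 := pairInj (pl_lt i.2 (c j).2 h1) (pl_lt i'.2 (c j').2 h2) h3
    have h5 : j = j' := Fin.ext h4.1
    subst h5
    exact ⟨Fin.ext (pl_inj h1 h2 h4.2), rfl⟩

theorem com : Pool.Agent.PDT.ComStmt := by
  intro F p hp hF ⟨v, hv⟩
  have hc : ∀ j : Fin p, ∃ i : Fin p, Lit F j i (v i) := by
    intro j
    cases hC : F[(j : ℕ)]? with
    | none =>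
      refine ⟨⟨0, hp⟩, ?_⟩
      intro C h
      rw [hC] at h
      cases h
    | some C =>
      have hmem : C ∈ F := List.mem_of_getElem? hC
      obtain ⟨l, hl, hl2⟩ := hv C hmem
      refine ⟨⟨l.1, hF C hmem l hl⟩, ?_⟩
      intro C' h
      rw [hC] at h
      cases h
      show (l.1, v l.1) ∈ C
      rw [hl2]
      exact hl
  choose c hc using hc
  have hcard : Fintype.card (Bool × Fin p × Fin p) = 2 * (p * p) := by
    rw [Fintype.card_prod, Fintype.card_prod, Fintype.card_bool, Fintype.card_fin]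
  refine ⟨Finset.univ.image (TT p v c), ?_, ?_, ?_, ?_⟩
  · intro e he
    obtain ⟨⟨b, i, j⟩, _, rfl⟩ := Finset.mem_image.1 he
    unfold trips
    rw [List.mem_flatMap]
    refine ⟨i, List.mem_range.2 i.2, ?_⟩
    rw [List.mem_flatMap]
    refine ⟨j, List.mem_range.2 j.2, ?_⟩
    cases b
    · apply List.mem_append_right
      have key : re p v i j (c j) ∈ tipTrips F p i j (v i) := by
        unfold tipTrips re rc
        by_cases h : (i : ℕ) = c j
        · apply List.mem_append_left
          have h2 : Lit F j i (v i) := by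
            rw [h]
            exact hc j
          rw [if_pos h2, if_pos h]
          exact List.mem_singleton.2 rfl
        · apply List.mem_append_right
          rw [List.mem_map]
          refine ⟨(j : ℕ) * (p - 1) + pl (c j) i, List.mem_range.2 (pairLt j.2 (pl_lt i.2 (c j).2 h)), ?_⟩
          rw [if_neg h]
      show re p v i j (c j) ∈ _
      cases hvi : v i
      · rw [hvi] at key
        exact List.mem_append_left _ key
      · rw [hvi] at key
        exact List.mem_append_right _ key
    · apply List.mem_append_left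
      show wh p v i j ∈ _
      unfold wh
      split_ifs
      · exact List.mem_cons_self
      · exact List.mem_cons_of_mem _ List.mem_cons_self
  · apply exu hcard (TT p v c) (fun e => e.1)
    · rintro ⟨b, i, j⟩ ⟨b', i', j'⟩ h
      have h1 : (TT p v c (b, i, j)).1 = (TT p v c (b', i', j')).1 := h
      cases b <;> cases b'
      · have h2 : tip p i j (v i) = tip p i' j' (v i') := h1
        obtain ⟨h3, h4, _⟩ := tip_inj j.2 j'.2 h2
        rw [Fin.ext h3, Fin.ext h4]
      · have h2 : tip p i j (v i) = (wh p v i' j').1 := h1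
        rw [wh_fst] at h2
        obtain ⟨h3, h4, h5⟩ := tip_inj j.2 j'.2 h2
        rw [h3] at h5
        cases hvi : v i' <;> rw [hvi] at h5 <;> cases h5
      · have h2 : (wh p v i j).1 = tip p i' j' (v i') := h1
        rw [wh_fst] at h2
        obtain ⟨h3, h4, h5⟩ := tip_inj j.2 j'.2 h2
        rw [h3] at h5
        cases hvi : v i' <;> rw [hvi] at h5 <;> cases h5
      · have h2 : (wh p v i j).1 = (wh p v i' j').1 := h1
        rw [wh_fst, wh_fst] at h2
        obtain ⟨h3, h4, h5⟩ := tip_inj j.2 j'.2 h2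
        rw [Fin.ext h3, Fin.ext h4]
    · rintro ⟨b, i, j⟩
      cases b
      · exact tip_lt i.2 j.2
      · show (wh p v i j).1 < _
        rw [wh_fst]
        exact tip_lt i.2 j.2
  · apply exu hcard (TT p v c) (fun e => e.2.1)
    · rintro ⟨b, i, j⟩ ⟨b', i', j'⟩ h
      have h1 : (TT p v c (b, i, j)).2.1 = (TT p v c (b', i', j')).2.1 := h
      cases b <;> cases b'
      · obtain ⟨h3, h4⟩ := rc_inj c i j i' j' h1
        rw [h3, h4]
      · exfalso
        have h2 := wh_s_lt v i'.2 j'.2
        have h3 := rc_ge p i j (c j)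
        have h4 : rc p i j (c j) = (wh p v i' j').2.1 := h1
        lia
      · exfalso
        have h2 := wh_s_lt v i.2 j.2
        have h3 := rc_ge p i' j' (c j')
        have h4 : (wh p v i j).2.1 = rc p i' j' (c j') := h1
        lia
      · have h0 : (wh p v i j).2.1 = (wh p v i' j').2.1 := h1
        obtain ⟨h3, h4⟩ := wh_s_inj v j.2 j'.2 h0
        rw [Fin.ext h3, Fin.ext h4]
    · rintro ⟨b, i, j⟩
      cases b
      · exact rc_lt i.2 j.2 (c j).2
      · have h2 := wh_s_lt v i.2 j.2
        show (wh p v i j).2.1 < _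
        lia
  · apply exu hcard (TT p v c) (fun e => e.2.2)
    · rintro ⟨b, i, j⟩ ⟨b', i', j'⟩ h
      have h1 : (TT p v c (b, i, j)).2.2 = (TT p v c (b', i', j')).2.2 := h
      cases b <;> cases b'
      · obtain ⟨h3, h4⟩ := rc_inj c i j i' j' h1
        rw [h3, h4]
      · exfalso
        have h2 := pairLt i'.2 j'.2
        have h3 := rc_ge p i j (c j)
        have h4 : rc p i j (c j) = (wh p v i' j').2.2 := h1
        rw [wh_ss] at h4
        lia
      · exfalso
        have h2 := pairLt i.2 j.2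
        have h3 := rc_ge p i' j' (c j')
        have h4 : (wh p v i j).2.2 = rc p i' j' (c j') := h1
        rw [wh_ss] at h4
        lia
      · have h4 : (wh p v i j).2.2 = (wh p v i' j').2.2 := h1
        rw [wh_ss, wh_ss] at h4
        obtain ⟨h5, h6⟩ := pairInj j.2 j'.2 h4
        rw [Fin.ext h5, Fin.ext h6]
    · rintro ⟨b, i, j⟩
      cases b
      · exact rc_lt i.2 j.2 (c j).2
      · have h2 := pairLt i.2 j.2
        show (wh p v i j).2.2 < _
        rw [wh_ss]
        lia

end Pool.Agent.PDT.H56
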